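import Mathlib

/-!
# A graph with decreasing upper k-domination numbers: the graph
-/

set_option autoImplicit false

namespace Pool.Agent.R524.UK

open Finset

open Classical in
/-- the value of `g` on the closed neighbourhood of `v` -/
noncomputable def nsum {V : Type} [Fintype V] (G : SimpleGraph V) (g : V → ℕ) (v : V) : ℕ :=
  ∑ w ∈ univ.filter (fun w => w = v ∨ G.Adj v w), g w

/-- minimal `k`-dominating functions -/
def IsMinDom {V : Type} [Fintype V] (G : SimpleGraph V) (k : ℕ) (g : V → ℕ) : Prop :=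
  (∀ v, g v ≤ k) ∧ (∀ v, k ≤ nsum G g v) ∧
    ∀ v, 0 < g v → ∃ u, (u = v ∨ G.Adj v u) ∧ nsum G g u = k

/-- ordered pairs of distinct elements -/
abbrev P2 (n : ℕ) := {p : Fin n × Fin n // p.1 ≠ p.2}

/-- ordered triples of distinct elements -/
abbrev P3 (n : ℕ) := {q : Fin n × Fin n × Fin n // q.1 ≠ q.2.1 ∧ q.1 ≠ q.2.2 ∧ q.2.1 ≠ q.2.2}

abbrev Idx (n L M : ℕ) := Fin L × P2 n × Fin M

/-- the vertices: `c i`, `u (σ, q)`, `t j`, `s j`, `x` -/
abbrev Vt (n L M : ℕ) := Fin n ⊕ (Fin L × P3 n) ⊕ Idx n L M ⊕ Idx n L M ⊕ Unit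

variable {n L M : ℕ}

/-- half of the adjacency relation -/
def rel : Vt n L M → Vt n L M → Prop
  | .inl _, .inl _ => True
  | .inr (.inl u), .inl i => i = u.2.1.1 ∨ i = u.2.1.2.1 ∨ i = u.2.1.2.2
  | .inr (.inr (.inl t)), .inl i => i = t.2.1.1.1 ∨ i = t.2.1.1.2
  | .inr (.inr (.inl t)), .inr (.inl u) => t.1 = u.1
  | .inr (.inr (.inl _)), .inr (.inr (.inl _)) => True
  | .inr (.inr (.inl t)), .inr (.inr (.inr (.inl s))) => t = s
  | .inr (.inr (.inr (.inl _))), .inr (.inr (.inr (.inl _))) => True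
  | .inr (.inr (.inr (.inl _))), .inr (.inr (.inr (.inr _))) => True
  | _, _ => False

/-- the graph -/
def gr (n L M : ℕ) : SimpleGraph (Vt n L M) := SimpleGraph.fromRel rel

theorem closed_iff (v w : Vt n L M) : (w = v ∨ (gr n L M).Adj v w) ↔ (w = v ∨ rel v w ∨ rel w v) := by
  unfold gr
  rw [SimpleGraph.fromRel_adj]
  by_cases h : w = v
  · simp [h]
  · simp [h, Ne.symm h]

open Classical in
theorem nsum_eq (g : Vt n L M → ℕ) (v : Vt n L M) :
    nsum (gr n L M) g v = ∑ w, if (w = v ∨ rel v w ∨ rel w v) then g w else 0 := by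
  unfold nsum
  rw [sum_filter]
  refine sum_congr rfl fun w _ => ?_
  simp only [closed_iff]

/-- the values of a function on the five kinds of vertices -/
abbrev vc (i : Fin n) : Vt n L M := .inl i
abbrev vu (u : Fin L × P3 n) : Vt n L M := .inr (.inl u)
abbrev vt (t : Idx n L M) : Vt n L M := .inr (.inr (.inl t))
abbrev vs (t : Idx n L M) : Vt n L M := .inr (.inr (.inr (.inl t)))
abbrev vx : Vt n L M := .inr (.inr (.inr (.inr ())))

theorem total (g : Vt n L M → ℕ) : ∑ v, g v = ∑ i, g (vc i) + (∑ u, g (vu u) + (∑ t, g (vt t) +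
    (∑ t, g (vs t) + g vx))) := by
  simp [Fintype.sum_sum_type]

open Classical in
theorem nsum_x (g : Vt n L M → ℕ) : nsum (gr n L M) g vx = ∑ t, g (vs t) + g vx := by
  rw [nsum_eq]
  simp [Fintype.sum_sum_type, rel]

open Classical in
theorem nsum_s (g : Vt n L M → ℕ) (t : Idx n L M) :
    nsum (gr n L M) g (vs t) = g (vt t) + (∑ t, g (vs t) + g vx) := by
  rw [nsum_eq]
  simp [Fintype.sum_sum_type, rel]

open Classical in
theorem nsum_t (g : Vt n L M → ℕ) (t : Idx n L M) :
    nsum (gr n L M) g (vt t) = (g (vc t.2.1.1.1) + g (vc t.2.1.1.2)) +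
      (∑ u : Fin L × P3 n, (if t.1 = u.1 then g (vu u) else 0) + (∑ t, g (vt t) + g (vs t))) := by
  rw [nsum_eq]
  simp only [Fintype.sum_sum_type, rel]
  simp only [reduceCtorEq, false_or, or_false, true_or, or_true, if_true, Sum.inr.injEq, Sum.inl.injEq,
    Finset.univ_unique, Finset.sum_singleton, if_false, add_zero, or_self]
  congr 1
  · have h : ∀ i : Fin n, (if i = t.2.1.1.1 ∨ i = t.2.1.1.2 then g (Sum.inl i) else 0) =
        (if i = t.2.1.1.1 then g (Sum.inl i) else 0) + (if i = t.2.1.1.2 then g (Sum.inl i) else 0) := by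
      intro i
      by_cases h1 : i = t.2.1.1.1
      · have h2 : i ≠ t.2.1.1.2 := by rw [h1]; exact t.2.1.2
        simp [h1, t.2.1.2]
      · simp [h1]
    simp only [h]
    rw [sum_add_distrib]
    simp
  · congr 2
    simp

open Classical in
theorem nsum_u (g : Vt n L M → ℕ) (u : Fin L × P3 n) :
    nsum (gr n L M) g (vu u) = (g (vc u.2.1.1) + g (vc u.2.1.2.1) + g (vc u.2.1.2.2)) +
      (g (vu u) + ∑ t : Idx n L M, (if t.1 = u.1 then g (vt t) else 0)) := by
  rw [nsum_eq]
  simp only [Fintype.sum_sum_type, rel]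
  simp only [reduceCtorEq, false_or, or_false, true_or, or_true, if_true, Sum.inr.injEq, Sum.inl.injEq,
    Finset.univ_unique, Finset.sum_singleton, if_false, add_zero, or_self, sum_const_zero]
  congr 1
  · have h : ∀ i : Fin n, (if i = u.2.1.1 ∨ i = u.2.1.2.1 ∨ i = u.2.1.2.2 then g (Sum.inl i) else 0) =
        (if i = u.2.1.1 then g (Sum.inl i) else 0) + (if i = u.2.1.2.1 then g (Sum.inl i) else 0) +
        (if i = u.2.1.2.2 then g (Sum.inl i) else 0) := by
      intro i
      obtain ⟨h1, h2, h3⟩ := u.2.2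
      by_cases e1 : i = u.2.1.1
      · simp [e1, h1, h2]
      · by_cases e2 : i = u.2.1.2.1
        · simp [e2, h1.symm, h3]
        · simp [e1, e2]
    simp only [h]
    rw [sum_add_distrib, sum_add_distrib]
    simp
  · congr 1
    simp

open Classical in
theorem nsum_c (g : Vt n L M → ℕ) (i : Fin n) :
    ∑ j, g (vc j) ≤ nsum (gr n L M) g (vc i) := by
  rw [nsum_eq]
  simp only [Fintype.sum_sum_type, rel]
  simp only [reduceCtorEq, false_or, or_false, true_or, or_true, if_true, Sum.inr.injEq, Sum.inl.injEq]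
  exact Nat.le_add_right _ _

end Pool.Agent.R524.UK
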