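import Mathlib
import Pool.Agent.R524.UK.Graph

/-!
# A graph with decreasing upper k-domination numbers: the upper bound for `k = 4`
-/

set_option autoImplicit false

namespace Pool.Agent.R524.UK

open Finset

variable {n L M : ℕ}

theorem nb_s (t : Idx n L M) (w : Vt n L M) (h : w = vs t ∨ (gr n L M).Adj (vs t) w) :
    w = vt t ∨ (∃ t', w = vs t') ∨ w = vx := by
  rw [closed_iff] at h
  rcases w with i | u | t' | t' | ⟨⟩
  · simp [rel] at h
  · simp [rel] at h
  · simp [rel] at h
    left; rw [h]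
  · exact Or.inr (Or.inl ⟨t', rfl⟩)
  · exact Or.inr (Or.inr rfl)

theorem nb_t (t : Idx n L M) (w : Vt n L M) (h : w = vt t ∨ (gr n L M).Adj (vt t) w) :
    (∃ i, w = vc i ∧ rel (vt t) (vc i)) ∨ (∃ u, w = vu u ∧ rel (vt t) (vu u)) ∨
      (∃ t', w = vt t') ∨ w = vs t := by
  rw [closed_iff] at h
  rcases w with i | u | t' | t' | ⟨⟩
  · left
    refine ⟨i, rfl, ?_⟩
    rcases h with h | h | h
    · simp at h
    · exact h
    · simp [rel] at h
  · right; left
    refine ⟨u, rfl, ?_⟩
    rcases h with h | h | h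
    · simp at h
    · exact h
    · simp [rel] at h
  · exact Or.inr (Or.inr (Or.inl ⟨t', rfl⟩))
  · right; right; right
    simp [rel] at h
    rw [h]
  · simp [rel] at h

open Classical in
theorem nsum_ge_t (g : Vt n L M → ℕ) (v : Vt n L M) :
    ∑ t : Idx n L M, (if rel (vt t) v then g (vt t) else 0) ≤ nsum (gr n L M) g v := by
  rw [nsum_eq]
  simp only [Fintype.sum_sum_type]
  have h : ∑ t : Idx n L M, (if rel (vt t) v then g (vt t) else 0) ≤
      ∑ t : Idx n L M, (if ((Sum.inr (Sum.inr (Sum.inl t)) : Vt n L M) = v ∨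
        rel v (Sum.inr (Sum.inr (Sum.inl t))) ∨ rel (Sum.inr (Sum.inr (Sum.inl t))) v)
        then g (Sum.inr (Sum.inr (Sum.inl t))) else 0) := by
    refine sum_le_sum fun t _ => ?_
    by_cases h1 : rel (vt t) v
    · have h2 : rel (Sum.inr (Sum.inr (Sum.inl t))) v := h1
      simp [h2, h1]
    · simp [h1]
  omega

/-- charging the weight of `T` to tight vertices of `C` and `U` -/
theorem charge (g : Vt n L M → ℕ)
    (h : ∀ t : Idx n L M, 0 < g (vt t) →
      (∃ i : Fin n, rel (vt t) (vc i) ∧ nsum (gr n L M) g (vc i) = 4) ∨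
      (∃ u : Fin L × P3 n, rel (vt t) (vu u) ∧ nsum (gr n L M) g (vu u) = 4)) :
    ∑ t : Idx n L M, g (vt t) ≤ 4 * n + 4 * (L * Fintype.card (P3 n)) := by
  classical
  have h1 : ∀ t : Idx n L M, g (vt t) ≤
      ∑ i : Fin n, (if nsum (gr n L M) g (vc i) = 4 then (if rel (vt t) (vc i) then g (vt t) else 0) else 0) +
      ∑ u : Fin L × P3 n, (if nsum (gr n L M) g (vu u) = 4 then (if rel (vt t) (vu u) then g (vt t) else 0) else 0) := by
    intro t
    rcases Nat.eq_zero_or_pos (g (vt t)) with h0 | h0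
    · rw [h0]; exact Nat.zero_le _
    · rcases h t h0 with ⟨i, h2, h3⟩ | ⟨u, h2, h3⟩
      · have h4 := single_le_sum (f := fun i : Fin n => (if nsum (gr n L M) g (vc i) = 4 then
          (if rel (vt t) (vc i) then g (vt t) else 0) else 0)) (fun _ _ => Nat.zero_le _) (mem_univ i)
        simp only [h2, h3, if_true] at h4
        omega
      · have h4 := single_le_sum (f := fun u : Fin L × P3 n => (if nsum (gr n L M) g (vu u) = 4 then
          (if rel (vt t) (vu u) then g (vt t) else 0) else 0)) (fun _ _ => Nat.zero_le _) (mem_univ u)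
        simp only [h2, h3, if_true] at h4
        omega
  have h2 := sum_le_sum (s := univ) fun t _ => h1 t
  rw [sum_add_distrib] at h2
  have h3 : ∑ t : Idx n L M, ∑ i : Fin n, (if nsum (gr n L M) g (vc i) = 4 then
      (if rel (vt t) (vc i) then g (vt t) else 0) else 0) ≤ 4 * n := by
    rw [sum_comm]
    have : ∑ i : Fin n, ∑ t : Idx n L M, (if nsum (gr n L M) g (vc i) = 4 then
      (if rel (vt t) (vc i) then g (vt t) else 0) else 0) ≤ ∑ _i : Fin n, 4 := by
      refine sum_le_sum fun i _ => ?_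
      by_cases h4 : nsum (gr n L M) g (vc i) = 4
      · simp only [h4, if_true]
        have := nsum_ge_t g (vc i)
        rw [h4] at this
        exact this
      · simp [h4]
    simpa [mul_comm] using this
  have h4 : ∑ t : Idx n L M, ∑ u : Fin L × P3 n, (if nsum (gr n L M) g (vu u) = 4 then
      (if rel (vt t) (vu u) then g (vt t) else 0) else 0) ≤ 4 * (L * Fintype.card (P3 n)) := by
    rw [sum_comm]
    have : ∑ u : Fin L × P3 n, ∑ t : Idx n L M, (if nsum (gr n L M) g (vu u) = 4 then
      (if rel (vt t) (vu u) then g (vt t) else 0) else 0) ≤ ∑ _u : Fin L × P3 n, 4 := by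
      refine sum_le_sum fun u _ => ?_
      by_cases h4 : nsum (gr n L M) g (vu u) = 4
      · simp only [h4, if_true]
        have := nsum_ge_t g (vu u)
        rw [h4] at this
        exact this
      · simp [h4]
    rw [sum_const, card_univ, Fintype.card_prod, Fintype.card_fin, smul_eq_mul, mul_comm] at this
    exact this
  omega

theorem sum_c_le (g : Vt n L M → ℕ) (hg : ∀ v, g v ≤ 4) : ∑ i, g (vc i) ≤ 4 * n := by
  have : ∑ i, g (vc i) ≤ ∑ _i : Fin n, 4 := sum_le_sum fun i _ => hg _
  simpa [mul_comm] using this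

theorem sum_u_le (g : Vt n L M → ℕ) (hg : ∀ v, g v ≤ 4) :
    ∑ u, g (vu u) ≤ 4 * (L * Fintype.card (P3 n)) := by
  have : ∑ u, g (vu u) ≤ ∑ _u : Fin L × P3 n, 4 := sum_le_sum fun i _ => hg _
  rw [sum_const, card_univ, Fintype.card_prod, Fintype.card_fin, smul_eq_mul, mul_comm] at this
  exact this

/-- three distinct light elements force `U`-weight `6` in a class without `T`-weight -/
theorem light_le (g : Vt n L M → ℕ) (σ : Fin L)
    (hu : ∀ u : Fin L × P3 n, u.1 = σ →
      4 ≤ (g (vc u.2.1.1) + g (vc u.2.1.2.1) + g (vc u.2.1.2.2)) + g (vu u))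
    (hs : ∑ q : P3 n, g (vu (σ, q)) ≤ 3) :
    (univ.filter fun i : Fin n => g (vc i) ≤ 1).card ≤ 2 := by
  classical
  by_contra hcon
  push Not at hcon
  obtain ⟨a, b, c, ha, hb, hc, hab, hac, hbc⟩ := two_lt_card_iff.1 hcon
  simp only [mem_filter, mem_univ, true_and] at ha hb hc
  have key : ∀ (i j k : Fin n) (h : i ≠ j ∧ i ≠ k ∧ j ≠ k), g (vc i) ≤ 1 → g (vc j) ≤ 1 →
      g (vc k) ≤ 1 → 1 ≤ g (vu (σ, (⟨(i, j, k), h⟩ : P3 n))) := by
    intro i j k h hi hj hk
    have := hu (σ, (⟨(i, j, k), h⟩ : P3 n)) rfl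
    simp only at this
    omega
  have k1 := key a b c ⟨hab, hac, hbc⟩ ha hb hc
  have k2 := key a c b ⟨hac, hab, hbc.symm⟩ ha hc hb
  have k3 := key b a c ⟨hab.symm, hbc, hac⟩ hb ha hc
  have k4 := key b c a ⟨hbc, hab.symm, hac.symm⟩ hb hc ha
  let q1 : P3 n := ⟨(a, b, c), ⟨hab, hac, hbc⟩⟩
  let q2 : P3 n := ⟨(a, c, b), ⟨hac, hab, hbc.symm⟩⟩
  let q3 : P3 n := ⟨(b, a, c), ⟨hab.symm, hbc, hac⟩⟩
  let q4 : P3 n := ⟨(b, c, a), ⟨hbc, hab.symm, hac.symm⟩⟩
  have d12 : q1 ≠ q2 := by
    intro h
    have := congrArg (fun q : P3 n => q.1.2.1) h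
    exact hbc this
  have d13 : q1 ≠ q3 := by
    intro h
    have := congrArg (fun q : P3 n => q.1.1) h
    exact hab this
  have d14 : q1 ≠ q4 := by
    intro h
    have := congrArg (fun q : P3 n => q.1.1) h
    exact hab this
  have d23 : q2 ≠ q3 := by
    intro h
    have := congrArg (fun q : P3 n => q.1.1) h
    exact hab this
  have d24 : q2 ≠ q4 := by
    intro h
    have := congrArg (fun q : P3 n => q.1.1) h
    exact hab this
  have d34 : q3 ≠ q4 := by
    intro h
    have := congrArg (fun q : P3 n => q.1.2.1) h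
    exact hac this
  have hsub : ∑ q ∈ ({q1, q2, q3, q4} : Finset (P3 n)), g (vu (σ, q)) ≤ ∑ q : P3 n, g (vu (σ, q)) :=
    sum_le_sum_of_subset (subset_univ _)
  rw [sum_insert (by simp [d12, d13, d14]), sum_insert (by simp [d23, d24]),
    sum_insert (by simp [d34]), sum_singleton] at hsub
  have e1 : 1 ≤ g (vu (σ, q1)) := k1
  have e2 : 1 ≤ g (vu (σ, q2)) := k2
  have e3 : 1 ≤ g (vu (σ, q3)) := k3
  have e4 : 1 ≤ g (vu (σ, q4)) := k4
  omega

theorem sum_class (f : Fin L × P3 n → ℕ) (σ : Fin L) :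
    ∑ u : Fin L × P3 n, (if σ = u.1 then f u else 0) = ∑ q : P3 n, f (σ, q) := by
  rw [Fintype.sum_prod_type]
  rw [sum_eq_single σ]
  · simp
  · intro b _ hb
    simp [hb.symm]
  · simp

theorem sum_idx (F : P2 n → ℕ) : ∑ t : Idx n L M, F t.2.1 = L * (M * ∑ e, F e) := by
  rw [Fintype.sum_prod_type]
  have h : ∑ y : P2 n × Fin M, F y.1 = M * ∑ e, F e := by
    rw [Fintype.sum_prod_type]
    simp only [sum_const, card_univ, Fintype.card_fin, smul_eq_mul]
    rw [← mul_sum]
  simp only [sum_const, card_univ, Fintype.card_fin, smul_eq_mul]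
  rw [h]

open Classical in
/-- the number of indices whose pair meets a small set -/
theorem pair_count (Z : Finset (Fin n)) (hZ : Z.card ≤ 2) :
    ∑ t : Idx n L M, ((if t.2.1.1.1 ∈ Z then 4 else 0) + (if t.2.1.1.2 ∈ Z then 4 else 0)) ≤
      16 * (n * (L * M)) := by
  have h1 : ∑ e : P2 n, ((if e.1.1 ∈ Z then 4 else 0) + (if e.1.2 ∈ Z then 4 else 0)) ≤ 16 * n := by
    have h2 : ∑ e : P2 n, ((if e.1.1 ∈ Z then 4 else 0) + (if e.1.2 ∈ Z then 4 else 0)) ≤
        ∑ e : Fin n × Fin n, ((if e.1 ∈ Z then 4 else 0) + (if e.2 ∈ Z then 4 else 0)) := by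
      rw [← sum_subtype (p := fun e : Fin n × Fin n => e.1 ≠ e.2) (univ.filter fun e : Fin n × Fin n => e.1 ≠ e.2) (by simp)
        (fun e : Fin n × Fin n => ((if e.1 ∈ Z then 4 else 0) + (if e.2 ∈ Z then 4 else 0)))]
      exact sum_le_sum_of_subset (filter_subset _ _)
    have h3 : ∑ e : Fin n × Fin n, ((if e.1 ∈ Z then 4 else 0) + (if e.2 ∈ Z then 4 else 0)) =
        8 * (Z.card * n) := by
      have h5 : ∑ i : Fin n, (if i ∈ Z then 4 else 0) = 4 * Z.card := by
        rw [← sum_filter]
        simp [mul_comm]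
      have h6 : ∑ i : Fin n, ∑ _j : Fin n, (if i ∈ Z then 4 else 0) = n * (4 * Z.card) := by
        rw [← h5, mul_sum]
        exact sum_congr rfl fun i _ => by rw [sum_const, card_univ, Fintype.card_fin, smul_eq_mul]
      have h7 : ∑ e : Fin n × Fin n, (if e.1 ∈ Z then 4 else 0) = n * (4 * Z.card) := by
        rw [Fintype.sum_prod_type]
        exact h6
      have h8 : ∑ e : Fin n × Fin n, (if e.2 ∈ Z then 4 else 0) = n * (4 * Z.card) := by
        rw [Fintype.sum_prod_type_right]
        exact h6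
      rw [sum_add_distrib, h7, h8]
      ring
    have h4 : Z.card * n ≤ 2 * n := Nat.mul_le_mul_right _ hZ
    omega
  rw [sum_idx (fun e : P2 n => (if e.1.1 ∈ Z then 4 else 0) + (if e.1.2 ∈ Z then 4 else 0))]
  calc L * (M * ∑ e : P2 n, ((if e.1.1 ∈ Z then 4 else 0) + (if e.1.2 ∈ Z then 4 else 0)))
      ≤ L * (M * (16 * n)) := Nat.mul_le_mul_left _ (Nat.mul_le_mul_left _ h1)
    _ = 16 * (n * (L * M)) := by ring

/-- the weight of `S` over the classes with positive `T`-weight -/
theorem relaxed_le (g : Vt n L M → ℕ) (hg : ∀ v, g v ≤ 4) (hτ : ∑ t : Idx n L M, g (vt t) ≤ 4)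
    (D : Finset (Fin L)) (hD : ∀ σ ∈ D, ∃ t : Idx n L M, t.1 = σ ∧ 0 < g (vt t)) :
    ∑ t : Idx n L M, (if t.1 ∈ D then g (vs t) else 0) ≤ 16 * (Fintype.card (P2 n) * M) := by
  classical
  have hcard : D.card ≤ 4 := by
    have h1 : D.card ≤ ((univ : Finset (Idx n L M)).filter fun t => 0 < g (vt t)).card := by
      refine le_trans (card_le_card (t := ((univ : Finset (Idx n L M)).filter
        fun t => 0 < g (vt t)).image fun t => t.1) ?_) card_image_le
      intro σ hσ
      obtain ⟨t, h1, h2⟩ := hD σ hσ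
      rw [mem_image]
      exact ⟨t, by simp [h2], h1⟩
    have h2 : ((univ : Finset (Idx n L M)).filter fun t => 0 < g (vt t)).card ≤ ∑ t, g (vt t) := by
      rw [card_eq_sum_ones]
      refine le_trans (sum_le_sum (g := fun t => g (vt t)) fun t ht => ?_)
        (sum_le_sum_of_subset (filter_subset _ _))
      exact (mem_filter.1 ht).2
    omega
  calc ∑ t : Idx n L M, (if t.1 ∈ D then g (vs t) else 0)
      ≤ ∑ t : Idx n L M, (if t.1 ∈ D then 4 else 0) := by
        refine sum_le_sum fun t _ => ?_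
        by_cases h : t.1 ∈ D
        · simp only [h, if_true]; exact hg _
        · simp [h]
    _ = ∑ σ : Fin L, Fintype.card (P2 n × Fin M) * (if σ ∈ D then 4 else 0) := by
        rw [Fintype.sum_prod_type]
        exact sum_congr rfl fun σ _ => by
          show ∑ _y : P2 n × Fin M, (if σ ∈ D then 4 else 0) = _
          rw [sum_const, card_univ, smul_eq_mul]
    _ = Fintype.card (P2 n × Fin M) * (D.card * 4) := by
        rw [← mul_sum, ← sum_filter]
        simp
    _ ≤ 16 * (Fintype.card (P2 n) * M) := by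
        rw [Fintype.card_prod, Fintype.card_fin]
        have : Fintype.card (P2 n) * M * (D.card * 4) ≤ Fintype.card (P2 n) * M * 16 :=
          Nat.mul_le_mul_left _ (by omega)
        linarith

theorem upper (g : Vt n L M → ℕ) (hg : IsMinDom (gr n L M) 4 g) :
    ∑ v, g v ≤ 8 * n + 8 * (L * Fintype.card (P3 n)) + 16 * (Fintype.card (P2 n) * M) +
      16 * (n * (L * M)) + 16 := by
  classical
  obtain ⟨hle, hdom, hmin⟩ := hg
  rw [total]
  have hc := sum_c_le g hle
  have hu := sum_u_le g hle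
  have hx : g vx ≤ 4 := hle _
  have hSX := hdom vx
  rw [nsum_x] at hSX
  -- a tight vertex of `S` or `x` bounds the weight of `S`
  have hsmall : (∀ t : Idx n L M, 0 < g (vs t) → nsum (gr n L M) g (vt t) ≠ 4) →
      ∑ t : Idx n L M, g (vs t) ≤ 4 := by
    intro h
    by_cases h0 : ∃ t : Idx n L M, 0 < g (vs t)
    · obtain ⟨t, ht⟩ := h0
      obtain ⟨w, hw, hw4⟩ := hmin _ ht
      rcases nb_s t w hw with rfl | ⟨t', rfl⟩ | rfl
      · exact absurd hw4 (h t ht)
      · rw [nsum_s] at hw4; omega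
      · rw [nsum_x] at hw4; omega
    · push Not at h0
      have : ∑ t : Idx n L M, g (vs t) = 0 := sum_eq_zero fun t _ => Nat.le_zero.1 (h0 t)
      omega
  by_cases hT : ∃ t₀ : Idx n L M, nsum (gr n L M) g (vt t₀) = 4
  · obtain ⟨t₀, ht₀⟩ := hT
    have hτ : ∑ t : Idx n L M, g (vt t) ≤ 4 := by
      rw [nsum_t] at ht₀; omega
    by_cases hS4 : ∑ t : Idx n L M, g (vs t) ≤ 4
    · omega
    -- every `s` of positive weight has a tight partner
    have htight : ∀ t : Idx n L M, 0 < g (vs t) → nsum (gr n L M) g (vt t) = 4 := by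
      intro t ht
      obtain ⟨w, hw, hw4⟩ := hmin _ ht
      rcases nb_s t w hw with rfl | ⟨t', rfl⟩ | rfl
      · exact hw4
      · rw [nsum_s] at hw4; omega
      · rw [nsum_x] at hw4; omega
    set D : Finset (Fin L) := univ.filter fun σ => ∃ t : Idx n L M, t.1 = σ ∧ 0 < g (vt t) with hD
    have hrel := relaxed_le g hle hτ D (by
      intro σ hσ
      rw [hD, mem_filter] at hσ
      exact hσ.2)
    set Z : Finset (Fin n) := univ.filter fun i : Fin n => g (vc i) ≤ 1 with hZ
    have hstrict : ∑ t : Idx n L M, (if t.1 ∈ D then 0 else g (vs t)) ≤ 16 * (n * (L * M)) := by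
      by_cases h0 : ∃ t : Idx n L M, t.1 ∉ D ∧ 0 < g (vs t)
      · obtain ⟨t₁, h1, h2⟩ := h0
        have h3 := htight t₁ h2
        rw [nsum_t, sum_class] at h3
        have hno : ∀ t : Idx n L M, t.1 = t₁.1 → g (vt t) = 0 := by
          intro t ht
          by_contra hne
          exact h1 (by
            rw [hD, mem_filter]
            exact ⟨mem_univ _, t, ht, Nat.pos_of_ne_zero hne⟩)
        have hZ2 : Z.card ≤ 2 := by
          refine light_le g t₁.1 ?_ (by omega)
          intro u hu
          have h4 := hdom (vu u)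
          rw [nsum_u] at h4
          have h5 : ∑ t : Idx n L M, (if t.1 = u.1 then g (vt t) else 0) = 0 := by
            refine sum_eq_zero fun t _ => ?_
            by_cases h6 : t.1 = u.1
            · rw [if_pos h6]; exact hno t (h6.trans hu)
            · rw [if_neg h6]
          omega
        refine le_trans (sum_le_sum fun t _ => ?_) (pair_count Z hZ2)
        by_cases h4 : t.1 ∈ D
        · simp [h4]
        · rw [if_neg h4]
          rcases Nat.eq_zero_or_pos (g (vs t)) with h5 | h5
          · rw [h5]; exact Nat.zero_le _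
          · have h6 := htight t h5
            rw [nsum_t] at h6
            have h7 := hle (vs t)
            by_cases h8 : t.2.1.1.1 ∈ Z
            · rw [if_pos h8]; omega
            · by_cases h9 : t.2.1.1.2 ∈ Z
              · rw [if_pos h9]; omega
              · rw [hZ, mem_filter] at h8 h9
                simp only [mem_univ, true_and, not_le] at h8 h9
                omega
      · push Not at h0
        have : ∑ t : Idx n L M, (if t.1 ∈ D then 0 else g (vs t)) = 0 := by
          refine sum_eq_zero fun t _ => ?_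
          by_cases h1 : t.1 ∈ D
          · rw [if_pos h1]
          · rw [if_neg h1]; exact Nat.le_zero.1 (h0 t h1)
        omega
    have hsplit : ∑ t : Idx n L M, g (vs t) = ∑ t : Idx n L M, (if t.1 ∈ D then g (vs t) else 0) +
        ∑ t : Idx n L M, (if t.1 ∈ D then 0 else g (vs t)) := by
      rw [← sum_add_distrib]
      refine sum_congr rfl fun t _ => ?_
      by_cases h : t.1 ∈ D
      · simp [h]
      · simp [h]
    omega
  · push Not at hT
    have hS4 := hsmall fun t _ => hT t
    have hch := charge g (by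
      intro t ht
      obtain ⟨w, hw, hw4⟩ := hmin _ ht
      rcases nb_t t w hw with ⟨i, rfl, h1⟩ | ⟨u, rfl, h1⟩ | ⟨t', rfl⟩ | rfl
      · exact Or.inl ⟨i, h1, hw4⟩
      · exact Or.inr ⟨u, h1, hw4⟩
      · exact absurd hw4 (hT t')
      · rw [nsum_s] at hw4
        omega)
    omega

end Pool.Agent.R524.UK
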