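import Mathlib
import Pool.Agent.R524.UK.Upper

/-!
# A graph with decreasing upper k-domination numbers: a heavy minimal 3-dominating function
-/

set_option autoImplicit false

namespace Pool.Agent.R524.UK

open Finset

variable {n L M : ℕ}

/-- weight one on `C` and on `S` -/
def g3 : Vt n L M → ℕ
  | .inl _ => 1
  | .inr (.inl _) => 0
  | .inr (.inr (.inl _)) => 0
  | .inr (.inr (.inr (.inl _))) => 1
  | .inr (.inr (.inr (.inr _))) => 0

theorem card_P2 : Fintype.card (P2 n) = n * (n - 1) := by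
  have h : Fintype.card (P2 n) = (univ.filter fun p : Fin n × Fin n => p.1 ≠ p.2).card :=
    Fintype.card_subtype _
  have h2 : (univ.filter fun p : Fin n × Fin n => p.1 ≠ p.2) = (univ : Finset (Fin n)).offDiag := by
    ext p
    simp
  rw [h, h2, offDiag_card, card_univ, Fintype.card_fin, Nat.mul_sub, mul_one]

theorem card_P3 : Fintype.card (P3 n) ≤ n * (n * n) := by
  have := Fintype.card_subtype_le fun q : Fin n × Fin n × Fin n => q.1 ≠ q.2.1 ∧ q.1 ≠ q.2.2 ∧ q.2.1 ≠ q.2.2
  simpa using this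

theorem card_Idx : Fintype.card (Idx n L M) = L * (Fintype.card (P2 n) * M) := by
  simp

theorem total_g3 : ∑ v : Vt n L M, g3 v = n + Fintype.card (Idx n L M) := by
  rw [total (n := n) (L := L) (M := M) g3]
  simp [g3]

theorem minDom_g3 (hn : 3 ≤ n) (hL : 1 ≤ L) (hM : 1 ≤ M) : IsMinDom (gr n L M) 3 (g3 : Vt n L M → ℕ) := by
  classical
  have hP2 : 3 ≤ Fintype.card (P2 n) := by
    rw [card_P2]
    calc 3 ≤ 3 * (3 - 1) := by norm_num
      _ ≤ n * (n - 1) := Nat.mul_le_mul hn (by omega)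
  have hI : 3 ≤ Fintype.card (Idx n L M) := by
    rw [card_Idx]
    calc 3 = 1 * (3 * 1) := by norm_num
      _ ≤ L * (Fintype.card (P2 n) * M) := Nat.mul_le_mul hL (Nat.mul_le_mul hP2 hM)
  have hSig : ∑ t : Idx n L M, (g3 (vs t : Vt n L M)) = Fintype.card (Idx n L M) := by
    simp [g3]
  have ht : ∀ t : Idx n L M, nsum (gr n L M) g3 (vt t) = 3 := by
    intro t
    rw [nsum_t]
    simp [g3]
  refine ⟨?_, ?_, ?_⟩
  · rintro (i | u | t | t | x) <;> simp [g3]
  · rintro (i | u | t | t | ⟨⟩)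
    · refine le_trans ?_ (nsum_c g3 i)
      simpa [g3] using hn
    · have := nsum_u (n := n) (L := L) (M := M) g3 u
      rw [this]
      simp [g3]
    · exact (ht t).ge
    · have := nsum_s (n := n) (L := L) (M := M) g3 t
      rw [this, hSig]
      simp only [g3]
      omega
    · have := nsum_x (n := n) (L := L) (M := M) g3
      rw [this, hSig]
      simp only [g3]
      omega
  · rintro (i | u | t | t | x) hpos
    · -- choose `j ≠ i`
      have hj : ∃ j : Fin n, i ≠ j := by
        by_cases hi : (i : ℕ) = 0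
        · exact ⟨⟨1, by omega⟩, fun h => by rw [h] at hi; simp at hi⟩
        · exact ⟨⟨0, by omega⟩, fun h => hi (by rw [h])⟩
      obtain ⟨j, hj⟩ := hj
      refine ⟨vt (⟨0, hL⟩, ⟨(i, j), hj⟩, ⟨0, hM⟩), ?_, ht _⟩
      rw [closed_iff]
      right; right
      exact Or.inl rfl
    · simp [g3] at hpos
    · simp [g3] at hpos
    · refine ⟨vt t, ?_, ht t⟩
      rw [closed_iff]
      right; right
      exact rfl
    · simp [g3] at hpos

/-- the numerical comparison -/
theorem numeric (C : ℕ) (hC : 1 ≤ C) (n L M : ℕ) (hL : L = 64 * C) (hn : n = 64 * C + 1)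
    (hM : M = n * n + 1) (p q : ℕ) (hp : p = n * (n - 1)) (hq : q ≤ n * (n * n)) :
    C * (8 * n + 8 * (L * q) + 16 * (p * M) + 16 * (n * (L * M)) + 16) < L * (p * M) := by
  have hn1 : n - 1 = L := by omega
  rw [hn1] at hp
  have h1 : L * q ≤ L * (n * (n * n)) := Nat.mul_le_mul_left _ hq
  have e1 : L * (p * M) = 64 * (C * (p * M)) := by rw [hL]; ring
  have e2 : p * M = n * (L * M) := by rw [hp]; ring
  have e3 : n * (L * M) = L * (n * (n * n)) + L * n := by rw [hM]; ring
  have h2 : n ≤ L * n := by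
    calc n = 1 * n := (one_mul n).symm
      _ ≤ L * n := Nat.mul_le_mul_right _ (by omega)
  have h3 : 1 ≤ n := by omega
  have h4 : 65 ≤ n := by omega
  have h5 : 8 * n + 8 * (L * q) + 16 * (p * M) + 16 * (n * (L * M)) + 16 < 64 * (p * M) := by
    rw [e2]
    omega
  calc C * (8 * n + 8 * (L * q) + 16 * (p * M) + 16 * (n * (L * M)) + 16) < C * (64 * (p * M)) :=
        Nat.mul_lt_mul_of_pos_left h5 hC
    _ = L * (p * M) := by rw [e1]; ring

/-- for every `C ≥ 1` there is a graph all of whose minimal 4-dominating functions have weight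
less than `1 / C` times that of some minimal 3-dominating function -/
theorem exists_graph (C : ℕ) (hC : 1 ≤ C) : ∃ n L M : ℕ,
    (∃ g : Vt n L M → ℕ, IsMinDom (gr n L M) 3 g ∧ ∀ h : Vt n L M → ℕ, IsMinDom (gr n L M) 4 h →
      C * ∑ v, h v < ∑ v, g v) := by
  refine ⟨64 * C + 1, 64 * C, (64 * C + 1) * (64 * C + 1) + 1, g3,
    minDom_g3 (by omega) (by omega) (by omega), ?_⟩
  intro h hh
  rw [total_g3, card_Idx]
  have h1 := upper h hh
  have h2 := numeric C hC (64 * C + 1) (64 * C) ((64 * C + 1) * (64 * C + 1) + 1) rfl rfl rfl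
    (Fintype.card (P2 (64 * C + 1))) (Fintype.card (P3 (64 * C + 1))) card_P2 card_P3
  have h3 := Nat.mul_le_mul_left C h1
  omega

end Pool.Agent.R524.UK
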